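import Mathlib

set_option autoImplicit false

namespace Pool.Agent.Results.MP_739307_an.Depends

open Filter Topology

/-- `e` is an approximate identity (a net indexed by the directed set `J`). -/
def IsAI {A J : Type} [NonUnitalNormedRing A] [Preorder J] (e : J → A) : Prop :=
  ∀ x : A, Tendsto (fun j => ‖e j * x - x‖) atTop (𝓝 0) ∧
    Tendsto (fun j => ‖x * e j - x‖) atTop (𝓝 0)

/-- The condition `C(a, l, E)`. -/
def Cond {A J : Type} [NonUnitalNormedRing A] [NormedSpace ℂ A] [Preorder J]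
    (a : A) (l : ℂ) (e : J → A) : Prop :=
  ∃ r : J → A, IsAI (fun j => (l • e j - a) * r j)

abbrev Alg : Type := ZeroAtInftyContinuousMap ℕ ℂ

/-- finitely supported element: `c` at `0`, `d` on `[1, j]`, zero after. -/
noncomputable def el (c d : ℂ) (j : ℕ) : Alg where
  toFun n := if n = 0 then c else if n ≤ j then d else 0
  continuous_toFun := continuous_of_discreteTopology
  zero_at_infty' := by
    rw [cocompact_eq_cofinite, Nat.cofinite_eq_atTop]
    refine tendsto_const_nhds.congr' ?_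
    filter_upwards [eventually_gt_atTop j] with n hn
    have h0 : n ≠ 0 := by omega
    have h1 : ¬ n ≤ j := by omega
    simp [h0, h1]

lemma el_apply (c d : ℂ) (j n : ℕ) :
    el c d j n = if n = 0 then c else if n ≤ j then d else 0 := rfl

lemma norm_le {x : Alg} {C : ℝ} (hC : 0 ≤ C) (h : ∀ n, ‖x n‖ ≤ C) : ‖x‖ ≤ C := by
  rw [← ZeroAtInftyContinuousMap.norm_toBCF_eq_norm]
  exact (BoundedContinuousFunction.norm_le hC).2 h

lemma apply_le (x : Alg) (n : ℕ) : ‖x n‖ ≤ ‖x‖ := by
  rw [← ZeroAtInftyContinuousMap.norm_toBCF_eq_norm]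
  exact BoundedContinuousFunction.norm_coe_le_norm x.toBCF n

lemma isAI_el (c : ℕ → ℂ) (hc : Tendsto c atTop (𝓝 1)) : IsAI (fun j => el (c j) 1 j) := by
  have key : ∀ x : Alg, Tendsto (fun j => ‖el (c j) 1 j * x - x‖) atTop (𝓝 0) := by
    intro x
    rw [Metric.tendsto_atTop]
    intro ε hε
    have h1 : Tendsto x atTop (𝓝 0) := by
      have := x.zero_at_infty'
      rw [cocompact_eq_cofinite, Nat.cofinite_eq_atTop] at this
      exact this
    have h2 : Tendsto (fun j => c j * x 0 - x 0) atTop (𝓝 0) := by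
      have := (hc.mul_const (x 0)).sub_const (x 0)
      simpa using this
    obtain ⟨N1, hN1⟩ := Metric.tendsto_atTop.1 h1 (ε / 2) (by linarith)
    obtain ⟨N2, hN2⟩ := Metric.tendsto_atTop.1 h2 (ε / 2) (by linarith)
    refine ⟨max N1 N2, fun j hj => ?_⟩
    have : ‖el (c j) 1 j * x - x‖ ≤ ε / 2 := by
      refine norm_le (by linarith) fun n => ?_
      have e : (el (c j) 1 j * x - x) n = el (c j) 1 j n * x n - x n := rfl
      rw [e, el_apply]
      split_ifs with h0 h1
      · subst h0
        have := hN2 j (le_of_max_le_right hj)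
        rw [dist_zero_right] at this
        exact this.le
      · simp; linarith
      · have := hN1 n (by have := le_of_max_le_left hj; omega)
        rw [dist_zero_right] at this
        simpa using this.le
    rw [Real.dist_eq, sub_zero, abs_of_nonneg (norm_nonneg _)]
    linarith
  intro x
  refine ⟨key x, ?_⟩
  simpa only [mul_comm x] using key x

theorem result : ∃ (A : Type) (_ : NonUnitalNormedCommRing A) (_ : NormedSpace ℂ A)
    (_ : IsScalarTower ℂ A A) (_ : SMulCommClass ℂ A A),
    CompleteSpace A ∧ (¬ ∃ u : A, ∀ x : A, u * x = x) ∧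
    ∃ (a : A) (l : ℂ) (E F : ℕ → A), IsAI E ∧ IsAI F ∧ (∀ j, ‖E j‖ ≤ 1) ∧ (∀ j, ‖F j‖ ≤ 1) ∧
      Cond a l E ∧ ¬ Cond a l F := by
  have hlim : Tendsto (fun j : ℕ => (1 - 1 / ((j : ℂ) + 1))) atTop (𝓝 1) := by
    have : Tendsto (fun j : ℕ => (1 / ((j : ℂ) + 1))) atTop (𝓝 0) :=
      tendsto_one_div_add_atTop_nhds_zero_nat
    simpa using this.const_sub 1
  refine ⟨Alg, inferInstance, inferInstance, inferInstance, inferInstance, inferInstance, ?_,
    el 1 0 0, 1, fun j => el (1 - 1 / ((j : ℂ) + 1)) 1 j, fun j => el 1 1 j,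
    isAI_el _ hlim, isAI_el _ tendsto_const_nhds, ?_, ?_, ?_, ?_⟩
  · rintro ⟨u, hu⟩
    have h1 : ∀ n, u n = 1 := by
      intro n
      have := congrArg (fun x : Alg => x n) (hu (el 1 1 n))
      have e : (u * el 1 1 n) n = u n * el 1 1 n n := rfl
      simp only [e, el_apply] at this
      split_ifs at this with h0 h1
      · simpa using this
      · simpa using this
      · omega
    have h2 : Tendsto u atTop (𝓝 0) := by
      have := u.zero_at_infty'
      rw [cocompact_eq_cofinite, Nat.cofinite_eq_atTop] at this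
      exact this
    have h3 : Tendsto u atTop (𝓝 1) := tendsto_const_nhds.congr fun n => (h1 n).symm
    exact zero_ne_one (tendsto_nhds_unique h2 h3)
  · intro j
    refine norm_le zero_le_one fun n => ?_
    rw [el_apply]
    split_ifs
    · have : (1 - 1 / ((j : ℂ) + 1)) = ((1 - 1 / ((j : ℝ) + 1) : ℝ) : ℂ) := by push_cast; ring
      rw [this, Complex.norm_real, Real.norm_eq_abs, abs_le]
      have h1 : 0 ≤ 1 / ((j : ℝ) + 1) := by positivity
      have h2 : 1 / ((j : ℝ) + 1) ≤ 1 := by
        rw [div_le_one (by positivity)]; have : (0 : ℝ) ≤ j := by positivity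
        linarith
      constructor <;> linarith
    · simp
    · simp
  · intro j
    refine norm_le zero_le_one fun n => ?_
    rw [el_apply]
    split_ifs <;> simp
  · refine ⟨fun j => el (-((j : ℂ) + 1)) 1 j, ?_⟩
    have : (fun j : ℕ => ((1 : ℂ) • el (1 - 1 / ((j : ℂ) + 1)) 1 j - el 1 0 0) *
        el (-((j : ℂ) + 1)) 1 j) = fun j => el 1 1 j := by
      funext j
      ext n
      have e : (((1 : ℂ) • el (1 - 1 / ((j : ℂ) + 1)) 1 j - el 1 0 0) *
        el (-((j : ℂ) + 1)) 1 j) n = ((1 : ℂ) • el (1 - 1 / ((j : ℂ) + 1)) 1 j n - el 1 0 0 n) *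
        el (-((j : ℂ) + 1)) 1 j n := rfl
      rw [e]
      simp only [el_apply]
      have hj : ((j : ℂ) + 1) ≠ 0 := by exact_mod_cast Nat.succ_ne_zero j
      split_ifs <;> simp
      field_simp
      ring
    rw [this]
    exact isAI_el (fun _ => 1) tendsto_const_nhds
  · rintro ⟨r, hr⟩
    have h := (hr (el 1 0 0)).1
    have h1 : ∀ j, (1 : ℝ) ≤ ‖((1 : ℂ) • el 1 1 j - el 1 0 0) * r j * el 1 0 0 - el 1 0 0‖ := by
      intro j
      refine le_trans ?_ (apply_le _ 0)
      have e : (((1 : ℂ) • el 1 1 j - el 1 0 0) * r j * el 1 0 0 - el 1 0 0) 0 =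
        ((1 : ℂ) • el 1 1 j 0 - el 1 0 0 0) * r j 0 * el 1 0 0 0 - el 1 0 0 0 := rfl
      rw [e]
      simp [el_apply]
    have := ge_of_tendsto' h h1
    linarith

end Pool.Agent.Results.MP_739307_an.Depends
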